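import Pool.Agent.Helper51.AJ.St
import Pool.Agent.Helper51.AJ.Basic

/-!
# Project AJ (MP_d63854_co): module BBB, prism or `K₁,₁,₃`
-/

set_option autoImplicit false

namespace Pool.Agent.Helper80.AJ

open Pool.Agent.Helper51.AJ

private theorem mX3 {V : Type} {B : SimpleGraph V} (A0 A1 A2 A3 A4 : Set V)
    (c0 : Con B A0) (c1 : Con B A1) (c2 : Con B A2) (c3 : Con B A3) (c4 : Con B A4)
    (d01 : Disjoint A0 A1) (d02 : Disjoint A0 A2) (d03 : Disjoint A0 A3) (d04 : Disjoint A0 A4)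
    (d12 : Disjoint A1 A2) (d13 : Disjoint A1 A3) (d14 : Disjoint A1 A4)
    (d23 : Disjoint A2 A3) (d24 : Disjoint A2 A4) (d34 : Disjoint A3 A4)
    (t01 : Tch B A0 A1) (t02 : Tch B A0 A2) (t03 : Tch B A0 A3) (t04 : Tch B A0 A4)
    (t12 : Tch B A1 A2) (t13 : Tch B A1 A3) (t14 : Tch B A1 A4) : IsMinor X3 B := by
  refine isMinor_gr ![A0, A1, A2, A3, A4] ?_ ?_ ?_
  · intro i
    fin_cases i
    exacts [c0, c1, c2, c3, c4]
  · intro i j hij
    fin_cases i <;> fin_cases j <;> first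
      | exact absurd hij (by decide)
      | assumption
  · intro p hp h1 h2
    simp only [List.mem_cons, List.not_mem_nil, or_false] at hp
    rcases hp with rfl | rfl | rfl | rfl | rfl | rfl | rfl <;> assumption

private theorem mX4 {V : Type} {B : SimpleGraph V} (A0 A1 A2 A3 A4 A5 : Set V)
    (c0 : Con B A0) (c1 : Con B A1) (c2 : Con B A2) (c3 : Con B A3) (c4 : Con B A4) (c5 : Con B A5)
    (d01 : Disjoint A0 A1) (d02 : Disjoint A0 A2) (d03 : Disjoint A0 A3) (d04 : Disjoint A0 A4)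
    (d05 : Disjoint A0 A5)
    (d12 : Disjoint A1 A2) (d13 : Disjoint A1 A3) (d14 : Disjoint A1 A4) (d15 : Disjoint A1 A5)
    (d23 : Disjoint A2 A3) (d24 : Disjoint A2 A4) (d25 : Disjoint A2 A5)
    (d34 : Disjoint A3 A4) (d35 : Disjoint A3 A5) (d45 : Disjoint A4 A5)
    (t01 : Tch B A0 A1) (t12 : Tch B A1 A2) (t02 : Tch B A0 A2) (t34 : Tch B A3 A4)
    (t45 : Tch B A4 A5) (t35 : Tch B A3 A5) (t03 : Tch B A0 A3) (t14 : Tch B A1 A4) (t25 : Tch B A2 A5) :
    IsMinor X4 B := by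
  refine isMinor_gr ![A0, A1, A2, A3, A4, A5] ?_ ?_ ?_
  · intro i
    fin_cases i
    exacts [c0, c1, c2, c3, c4, c5]
  · intro i j hij
    fin_cases i <;> fin_cases j <;> first
      | exact absurd hij (by decide)
      | assumption
  · intro p hp h1 h2
    simp only [List.mem_cons, List.not_mem_nil, or_false] at hp
    rcases hp with rfl | rfl | rfl | rfl | rfl | rfl | rfl | rfl | rfl <;> assumption

private theorem caseEq {V : Type} {B : SimpleGraph V} {u v w x z : V} {W : Fin 3 → Set V} (h : NF B u v W)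
    (h0 : W 0 = {w}) (h1 : W 1 = {x}) (hxz : B.Adj x z) (hwz : B.Adj w z) {P Z : Set V} (hPZ : P ∪ Z = W 2)
    (hd : Disjoint P Z) (hz : z ∈ Z) (hP : Con B P) (hZ : Con B Z) (ht : Tch B P Z) (hu : Tch B {u} P)
    (hv : Tch B {v} Z) : IsMinor X3 B := by
  have huw : B.Adj u w := by
    obtain ⟨a, ha, b, hb, hab⟩ := h.au 0
    rw [h0] at hb
    rwa [Set.mem_singleton_iff.1 ha, Set.mem_singleton_iff.1 hb] at hab
  have hux : B.Adj u x := by
    obtain ⟨a, ha, b, hb, hab⟩ := h.au 1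
    rw [h1] at hb
    rwa [Set.mem_singleton_iff.1 ha, Set.mem_singleton_iff.1 hb] at hab
  have hvw : B.Adj v w := by
    obtain ⟨a, ha, b, hb, hab⟩ := h.av 0
    rw [h0] at hb
    rwa [Set.mem_singleton_iff.1 ha, Set.mem_singleton_iff.1 hb] at hab
  have hvx : B.Adj v x := by
    obtain ⟨a, ha, b, hb, hab⟩ := h.av 1
    rw [h1] at hb
    rwa [Set.mem_singleton_iff.1 ha, Set.mem_singleton_iff.1 hb] at hab
  have hwx : w ≠ x := by
    intro he
    have hd01 := h.dis 0 1 (by decide)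
    rw [h0, h1, he] at hd01
    exact Set.disjoint_left.1 hd01 rfl rfl
  have hw2 : w ∉ W 2 := by
    have hd02 := h.dis 0 2 (by decide)
    rw [h0] at hd02
    exact Set.disjoint_left.1 hd02 rfl
  have hx2 : x ∉ W 2 := by
    have hd12 := h.dis 1 2 (by decide)
    rw [h1] at hd12
    exact Set.disjoint_left.1 hd12 rfl
  have hu2 := h.nu 2
  have hv2 := h.nv 2
  have hP2 : P ⊆ W 2 := hPZ ▸ Set.subset_union_left
  have hZ2 : Z ⊆ W 2 := hPZ ▸ Set.subset_union_right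
  refine mX3 Z {x, u} {v} P {w} hZ (con_pair hux.symm) (con_singleton B v) hP (con_singleton B w)
    ?_ ?_ hd.symm ?_ ?_ ?_ ?_ ?_ ?_ ?_ ?_ (tch_symm hv) (tch_symm ht) ?_ ?_ ?_ ?_
  · rw [Set.disjoint_left]
    rintro a ha (hb | hb)
    · exact hx2 (hb ▸ hZ2 ha)
    · exact hu2 ((Set.mem_singleton_iff.1 hb) ▸ hZ2 ha)
  · rw [Set.disjoint_singleton_right]
    exact fun hc => hv2 (hZ2 hc)
  · rw [Set.disjoint_singleton_right]
    exact fun hc => hw2 (hZ2 hc)
  · rw [Set.disjoint_singleton_right]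
    rintro (hc | hc)
    · exact B.ne_of_adj hvx hc
    · exact h.ne (Set.mem_singleton_iff.1 hc).symm
  · rw [Set.disjoint_left]
    rintro a (hb | hb) ha
    · exact hx2 (hb ▸ hP2 ha)
    · exact hu2 ((Set.mem_singleton_iff.1 hb) ▸ hP2 ha)
  · rw [Set.disjoint_singleton_right]
    rintro (hc | hc)
    · exact hwx hc
    · exact B.ne_of_adj huw (Set.mem_singleton_iff.1 hc).symm
  · rw [Set.disjoint_singleton_left]
    exact fun hc => hv2 (hP2 hc)
  · rw [Set.disjoint_singleton_right]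
    exact fun hc => B.ne_of_adj hvw (Set.mem_singleton_iff.1 hc).symm
  · rw [Set.disjoint_singleton_right]
    exact fun hc => hw2 (hP2 hc)
  · exact ⟨z, hz, x, Or.inl rfl, hxz.symm⟩
  · exact ⟨z, hz, w, rfl, hwz.symm⟩
  · exact ⟨x, Or.inl rfl, v, rfl, hvx.symm⟩
  · exact tch_mono hu (fun a ha => Or.inr ha) (fun a ha => ha)
  · exact ⟨u, Or.inr rfl, w, rfl, huw⟩

private theorem caseNe {V : Type} {B : SimpleGraph V} {u v w x y y' : V} {W : Fin 3 → Set V} (h : NF B u v W)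
    (h0 : W 0 = {w}) (h1 : W 1 = {x}) (hxy : B.Adj x y) (hwy : B.Adj w y') {Y Y' : Set V} (hYY : Y ∪ Y' = W 2)
    (hd : Disjoint Y Y') (hy : y ∈ Y) (hy' : y' ∈ Y') (hY : Con B Y) (hY' : Con B Y') (ht : Tch B Y Y')
    (hu : Tch B {u} Y) (hv : Tch B {v} Y') : IsMinor X4 B := by
  have huw : B.Adj u w := by
    obtain ⟨a, ha, b, hb, hab⟩ := h.au 0
    rw [h0] at hb
    rwa [Set.mem_singleton_iff.1 ha, Set.mem_singleton_iff.1 hb] at hab
  have hux : B.Adj u x := by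
    obtain ⟨a, ha, b, hb, hab⟩ := h.au 1
    rw [h1] at hb
    rwa [Set.mem_singleton_iff.1 ha, Set.mem_singleton_iff.1 hb] at hab
  have hvw : B.Adj v w := by
    obtain ⟨a, ha, b, hb, hab⟩ := h.av 0
    rw [h0] at hb
    rwa [Set.mem_singleton_iff.1 ha, Set.mem_singleton_iff.1 hb] at hab
  have hvx : B.Adj v x := by
    obtain ⟨a, ha, b, hb, hab⟩ := h.av 1
    rw [h1] at hb
    rwa [Set.mem_singleton_iff.1 ha, Set.mem_singleton_iff.1 hb] at hab
  have hwx : w ≠ x := by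
    intro he
    have hd01 := h.dis 0 1 (by decide)
    rw [h0, h1, he] at hd01
    exact Set.disjoint_left.1 hd01 rfl rfl
  have hw2 : w ∉ W 2 := by
    have hd02 := h.dis 0 2 (by decide)
    rw [h0] at hd02
    exact Set.disjoint_left.1 hd02 rfl
  have hx2 : x ∉ W 2 := by
    have hd12 := h.dis 1 2 (by decide)
    rw [h1] at hd12
    exact Set.disjoint_left.1 hd12 rfl
  have hu2 := h.nu 2
  have hv2 := h.nv 2
  have hY2 : Y ⊆ W 2 := hYY ▸ Set.subset_union_left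
  have hY2' : Y' ⊆ W 2 := hYY ▸ Set.subset_union_right
  refine mX4 {x} {u} Y {v} {w} Y' (con_singleton B x) (con_singleton B u) hY (con_singleton B v) (con_singleton B w)
    hY' ?_ ?_ ?_ ?_ ?_ ?_ ?_ ?_ ?_ ?_ ?_ hd ?_ ?_ ?_ ?_ hu ?_ ?_ ?_ hv ?_ ?_ ht
  · exact Set.disjoint_singleton.2 (B.ne_of_adj hux).symm
  · exact Set.disjoint_singleton_left.2 fun hc => hx2 (hY2 hc)
  · exact Set.disjoint_singleton.2 (B.ne_of_adj hvx).symm
  · exact Set.disjoint_singleton.2 hwx.symm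
  · exact Set.disjoint_singleton_left.2 fun hc => hx2 (hY2' hc)
  · exact Set.disjoint_singleton_left.2 fun hc => hu2 (hY2 hc)
  · exact Set.disjoint_singleton.2 h.ne
  · exact Set.disjoint_singleton.2 (B.ne_of_adj huw)
  · exact Set.disjoint_singleton_left.2 fun hc => hu2 (hY2' hc)
  · exact Set.disjoint_singleton_right.2 fun hc => hv2 (hY2 hc)
  · exact Set.disjoint_singleton_right.2 fun hc => hw2 (hY2 hc)
  · exact Set.disjoint_singleton.2 (B.ne_of_adj hvw)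
  · exact Set.disjoint_singleton_left.2 fun hc => hv2 (hY2' hc)
  · exact Set.disjoint_singleton_left.2 fun hc => hw2 (hY2' hc)
  · exact ⟨x, rfl, u, rfl, hux.symm⟩
  · exact ⟨x, rfl, y, hy, hxy⟩
  · exact ⟨v, rfl, w, rfl, hvw⟩
  · exact ⟨w, rfl, y', hy', hwy⟩
  · exact ⟨x, rfl, v, rfl, hvx.symm⟩
  · exact ⟨u, rfl, w, rfl, huw⟩

/-- module BBB -/
theorem hBBB (h1 : StSpl) : StBbb := by
  intro V _ B u v w x W hNF h0 hx hxy hwy hns
  obtain ⟨y, hy, hxy⟩ := hxy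
  obtain ⟨y', hy', hwy⟩ := hwy
  obtain ⟨_, h2, h3⟩ := h1 V B u v W hNF 2 hns
  by_cases hyy : y = y'
  · right
    rw [← hyy] at hwy
    obtain ⟨P, Z, hPZ, hd, hz, hP, hZ, ht, hc | hc⟩ := h2 y hy
    · exact caseEq hNF h0 hx hxy hwy hPZ hd hz hP hZ ht hc.1 hc.2
    · exact caseEq hNF.swap h0 hx hxy hwy hPZ hd hz hP hZ ht hc.1 hc.2
  · left
    obtain ⟨Y, Y', hYY, hd, hY1, hY2, hY, hY', ht, hc | hc⟩ := h3 y hy y' hy' hyy
    · exact caseNe hNF h0 hx hxy hwy hYY hd hY1 hY2 hY hY' ht hc.1 hc.2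
    · exact caseNe hNF.swap h0 hx hxy hwy hYY hd hY1 hY2 hY hY' ht hc.1 hc.2

end Pool.Agent.Helper80.AJ
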