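import Pool.Agent.Helper51.AJ.St
import Pool.Agent.Helper51.AJ.Basic

/-!
# Project AJ (MP_d63854_co): module PTH, minimal connected sets are paths
-/

set_option autoImplicit false

namespace Pool.Agent.Helper80.AJ

open Pool.Agent.Helper51.AJ

private theorem aux (h1 : StCon) (V : Type) [Finite V] (B : SimpleGraph V) (y : V) (n : ℕ) :
    ∀ (S : Set V) (x : V), S.ncard = n → Con B S → x ∈ S → y ∈ S →
      (∀ T ⊆ S, Con B T → x ∈ T → y ∈ T → T = S) →
      ∀ z ∈ S, {t | t ∈ S ∧ B.Adj z t}.ncard ≤ 2 ∧ ((z = x ∨ z = y) → {t | t ∈ S ∧ B.Adj z t}.ncard ≤ 1) := by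
  induction n with
  | zero =>
    intro S x hn _ hx
    have h0 : S = ∅ := (Set.ncard_eq_zero (Set.toFinite S)).1 hn
    rw [h0] at hx
    exact absurd hx (Set.notMem_empty x)
  | succ n ih =>
    intro S x hn hc hx hy hmin z hz
    by_cases hS : S = {y}
    · have he : {t | t ∈ S ∧ B.Adj z t} = ∅ := by
        ext t
        simp only [Set.mem_setOf_eq, Set.mem_empty_iff_false, iff_false, not_and]
        intro ht hadj
        rw [hS] at ht hz
        rw [Set.mem_singleton_iff.1 ht, Set.mem_singleton_iff.1 hz] at hadj
        exact B.ne_of_adj hadj rfl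
      rw [he]
      simp
    · obtain ⟨t, htS, hty, htc⟩ := (h1 V B S hc).2.1 y hy hS
      have htx : t = x := by
        by_contra hne
        have h := hmin (S \ {t}) Set.diff_subset htc ⟨hx, fun h => hne (Set.mem_singleton_iff.1 h).symm⟩
          ⟨hy, fun h => hty (Set.mem_singleton_iff.1 h).symm⟩
        rw [← h] at htS
        exact htS.2 rfl
      rw [htx] at htc hty
      have hyS' : y ∈ S \ {x} := ⟨hy, fun h => hty (Set.mem_singleton_iff.1 h).symm⟩
      obtain ⟨x0, hx0, x', hx', hadj⟩ := (h1 V B S hc).1 {x} (Set.singleton_subset_iff.2 hx) ⟨x, rfl⟩ (fun h => by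
        rw [← h] at hy
        exact hty (Set.mem_singleton_iff.1 hy).symm)
      rw [Set.mem_singleton_iff.1 hx0] at hadj
      have huniq : ∀ x'' ∈ S \ {x}, B.Adj x x'' → x'' = x' := by
        intro x'' hx'' hadj'
        by_contra hne
        have hS'y : S \ {x} ≠ {y} := by
          intro h
          rw [h] at hx' hx''
          exact hne ((Set.mem_singleton_iff.1 hx'').trans (Set.mem_singleton_iff.1 hx').symm)
        obtain ⟨s, hsS', hsy, hsc⟩ := (h1 V B (S \ {x}) htc).2.1 y hyS' hS'y
        have htch : Tch B {x} ((S \ {x}) \ {s}) := by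
          by_cases h : x' = s
          · exact ⟨x, rfl, x'', ⟨hx'', fun h' => hne ((Set.mem_singleton_iff.1 h').trans h.symm)⟩, hadj'⟩
          · exact ⟨x, rfl, x', ⟨hx', fun h' => h (Set.mem_singleton_iff.1 h')⟩, hadj⟩
        have hcon := con_union (con_singleton B x) hsc htch
        have heq := hmin ({x} ∪ ((S \ {x}) \ {s})) (Set.union_subset (Set.singleton_subset_iff.2 hx)
          (Set.diff_subset.trans Set.diff_subset)) hcon (Or.inl rfl)
          (Or.inr ⟨hyS', fun h => hsy (Set.mem_singleton_iff.1 h).symm⟩)
        have hs : s ∈ S := hsS'.1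
        rw [← heq] at hs
        rcases hs with h | h
        · exact hsS'.2 h
        · exact h.2 rfl
      have hmin' : ∀ T ⊆ S \ {x}, Con B T → x' ∈ T → y ∈ T → T = S \ {x} := by
        intro T hTS hTc hx'T hyT
        have hcon := con_union (con_singleton B x) hTc ⟨x, rfl, x', hx'T, hadj⟩
        have heq := hmin ({x} ∪ T) (Set.union_subset (Set.singleton_subset_iff.2 hx) (hTS.trans Set.diff_subset)) hcon
          (Or.inl rfl) (Or.inr hyT)
        refine Set.Subset.antisymm hTS ?_
        intro s hs
        have hsS : s ∈ S := hs.1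
        rw [← heq] at hsS
        rcases hsS with h | h
        · exact absurd h hs.2
        · exact h
      have hcard : (S \ {x}).ncard = n := by
        rw [Set.ncard_diff_singleton_of_mem hx, hn]
        rfl
      have hI := ih (S \ {x}) x' hcard htc hx' hyS' hmin'
      by_cases hzx : z = x
      · have hsub : {t | t ∈ S ∧ B.Adj z t} ⊆ {x'} := by
          rintro t ⟨ht, hta⟩
          rw [hzx] at hta
          exact huniq t ⟨ht, fun h => B.ne_of_adj hta (Set.mem_singleton_iff.1 h).symm⟩ hta
        have h1' : {t | t ∈ S ∧ B.Adj z t}.ncard ≤ 1 := by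
          have h := Set.ncard_le_ncard hsub (Set.finite_singleton x')
          rwa [Set.ncard_singleton] at h
        exact ⟨h1'.trans one_le_two, fun _ => h1'⟩
      · have hzS' : z ∈ S \ {x} := ⟨hz, hzx⟩
        have hIz := hI z hzS'
        by_cases hzx' : z = x'
        · have hsub : {t | t ∈ S ∧ B.Adj z t} ⊆ insert x {t | t ∈ S \ {x} ∧ B.Adj z t} := by
            rintro t ⟨ht, hta⟩
            by_cases htx2 : t = x
            · exact Or.inl htx2
            · exact Or.inr ⟨⟨ht, htx2⟩, hta⟩
          have hle := Set.ncard_le_ncard hsub (Set.toFinite _)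
          have hle2 := Set.ncard_insert_le x {t | t ∈ S \ {x} ∧ B.Adj z t}
          refine ⟨?_, ?_⟩
          · have := hIz.2 (Or.inl hzx')
            omega
          · rintro (h | h)
            · exact absurd h hzx
            · have hS' : ({y} : Set V) = S \ {x} := hmin' {y} (Set.singleton_subset_iff.2 hyS') (con_singleton B y)
                (by rw [← hzx', h]; rfl) rfl
              have he : {t | t ∈ S \ {x} ∧ B.Adj z t} = ∅ := by
                ext t
                simp only [Set.mem_setOf_eq, Set.mem_empty_iff_false, iff_false, not_and]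
                intro ht hta
                rw [← hS'] at ht
                rw [h, Set.mem_singleton_iff.1 ht] at hta
                exact B.ne_of_adj hta rfl
              rw [he] at hle2 hle
              simp only [Set.ncard_empty] at hle2
              omega
        · have heq : {t | t ∈ S ∧ B.Adj z t} = {t | t ∈ S \ {x} ∧ B.Adj z t} := by
            ext t
            constructor
            · rintro ⟨ht, hta⟩
              refine ⟨⟨ht, fun h => ?_⟩, hta⟩
              rw [Set.mem_singleton_iff.1 h] at hta
              exact hzx' (huniq z hzS' hta.symm)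
            · rintro ⟨ht, hta⟩
              exact ⟨ht.1, hta⟩
          rw [heq]
          refine ⟨hIz.1, ?_⟩
          rintro (h | h)
          · exact absurd h hzx
          · exact hIz.2 (Or.inr h)

/-- module PTH -/
theorem hPTH (h1 : StCon) : StPth := by
  intro V _ B S x y hc hx hy hmin
  exact aux h1 V B y S.ncard S x rfl hc hx hy hmin

end Pool.Agent.Helper80.AJ
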